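import Mathlib
import Pool.Agent.H.MP_6c6198_al.Model

/-! A soluble-by-minimal group: an extension of a divisible torsion-free abelian minimal normal
subgroup by a soluble group of derived length 3 and rank 4. -/

set_option autoImplicit false

open MonoidAlgebra

namespace Pool.Agent.Results.MP_6c6198_al.DivisibleMinimalNormal

/-- `A` is a minimal normal subgroup of `G`. -/
def IsMinimalNormal {G : Type*} [Group G] (A : Subgroup G) : Prop :=
  A.Normal ∧ A ≠ ⊥ ∧ ∀ N : Subgroup G, N.Normal → N ≤ A → N = ⊥ ∨ N = A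

/-- Every finitely generated subgroup of `Q` can be generated by at most `r` elements. -/
def HasRankAtMost (Q : Type*) [Group Q] (r : ℕ) : Prop :=
  ∀ S : Subgroup Q, S.FG → ∃ t : Finset Q, t.card ≤ r ∧ Subgroup.closure (t : Set Q) = S

section rank

/-- auxiliary form of `HasRankAtMost` -/
def FRN (r : ℕ) (H : Type*) [Group H] : Prop :=
  ∀ s : Finset H, ∃ t : Finset H,
    t.card ≤ r ∧ Subgroup.closure (t : Set H) = Subgroup.closure (s : Set H)

theorem FRN.ext {H Q : Type*} [Group H] [Group Q] {r1 r2 : ℕ} (f : H →* Q) (h1 : FRN r1 f.ker)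
    (h2 : FRN r2 Q) : FRN (r2 + r1) H := by
  classical
  intro s
  obtain ⟨t2, ht2c, ht2⟩ := h2 (s.image f)
  have hmap : Subgroup.closure (t2 : Set Q) = (Subgroup.closure (s : Set H)).map f := by
    rw [ht2, MonoidHom.map_closure, Finset.coe_image]
  have hl : ∀ q : Q, ∃ g : H, q ∈ t2 → g ∈ Subgroup.closure (s : Set H) ∧ f g = q := by
    intro q
    by_cases hq : q ∈ t2
    · have : q ∈ (Subgroup.closure (s : Set H)).map f := by
        rw [← hmap]; exact Subgroup.subset_closure hq
      obtain ⟨g, hg, rfl⟩ := this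
      exact ⟨g, fun _ => ⟨hg, rfl⟩⟩
    · exact ⟨1, fun h => absurd h hq⟩
  choose l hl using hl
  set u2 : Finset H := t2.image l with hu2
  have hu2s : Subgroup.closure (u2 : Set H) ≤ Subgroup.closure (s : Set H) := by
    rw [Subgroup.closure_le]
    intro x hx
    simp only [hu2, Finset.coe_image, Set.mem_image, Finset.mem_coe] at hx
    obtain ⟨q, hq, rfl⟩ := hx
    exact (hl q hq).1
  have hu2m : (Subgroup.closure (u2 : Set H)).map f = (Subgroup.closure (s : Set H)).map f := by
    rw [← hmap]
    apply le_antisymm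
    · rw [hmap]; exact Subgroup.map_mono hu2s
    · rw [Subgroup.closure_le]
      intro q hq
      refine ⟨l q, Subgroup.subset_closure ?_, (hl q hq).2⟩
      simp only [hu2, Finset.coe_image]
      exact ⟨q, hq, rfl⟩
  have hc : ∀ g : H, ∃ c : H, g ∈ s → c ∈ Subgroup.closure (u2 : Set H) ∧ f c = f g := by
    intro g
    by_cases hg : g ∈ s
    · have : f g ∈ (Subgroup.closure (u2 : Set H)).map f := by
        rw [hu2m]; exact ⟨g, Subgroup.subset_closure hg, rfl⟩
      obtain ⟨c, hc, he⟩ := this
      exact ⟨c, fun _ => ⟨hc, he⟩⟩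
    · exact ⟨1, fun h => absurd h hg⟩
  choose c hc using hc
  set n : H → f.ker := fun g => if h : g ∈ s then
      ⟨(c g)⁻¹ * g, by rw [MonoidHom.mem_ker, map_mul, map_inv, (hc g h).2, inv_mul_cancel]⟩
    else 1 with hn
  have hnv : ∀ g ∈ s, ((n g : f.ker) : H) = (c g)⁻¹ * g := by
    intro g hg
    simp only [hn, dif_pos hg]
  obtain ⟨t1, ht1c, ht1⟩ := h1 (s.image n)
  set u1 : Finset H := t1.image (fun x : f.ker => (x : H)) with hu1
  have hcl : Subgroup.closure (u1 : Set H)
      = Subgroup.closure ((fun g => (c g)⁻¹ * g) '' (s : Set H)) := by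
    have e1 := congrArg (Subgroup.map f.ker.subtype) ht1
    rw [MonoidHom.map_closure, MonoidHom.map_closure] at e1
    have e2 : (f.ker.subtype '' (t1 : Set f.ker)) = (u1 : Set H) := by
      simp [hu1]
    have e3 : (f.ker.subtype '' ((s.image n : Finset f.ker) : Set f.ker))
        = (fun g => (c g)⁻¹ * g) '' (s : Set H) := by
      rw [Finset.coe_image, Set.image_image]
      apply Set.image_congr
      intro g hg
      exact hnv g hg
    rw [e2, e3] at e1
    exact e1
  refine ⟨u2 ∪ u1, ?_, ?_⟩
  · calc (u2 ∪ u1).card ≤ u2.card + u1.card := Finset.card_union_le _ _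
      _ ≤ t2.card + t1.card := by
          have e1 : u2.card ≤ t2.card := Finset.card_image_le (s := t2) (f := l)
          have e2 : u1.card ≤ t1.card := Finset.card_image_le
          exact Nat.add_le_add e1 e2
      _ ≤ r2 + r1 := Nat.add_le_add ht2c ht1c
  · apply le_antisymm
    · rw [Subgroup.closure_le, Finset.coe_union]
      apply Set.union_subset
      · exact Subgroup.subset_closure.trans hu2s
      · refine Subgroup.subset_closure.trans ?_
        rw [hcl]
        have : Subgroup.closure ((fun g => (c g)⁻¹ * g) '' (s : Set H))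
            ≤ Subgroup.closure (s : Set H) := by
          rw [Subgroup.closure_le]
          rintro _ ⟨g, hg, rfl⟩
          exact mul_mem (inv_mem (hu2s (hc g hg).1)) (Subgroup.subset_closure hg)
        exact this
    · rw [Subgroup.closure_le]
      intro g hg
      have h2 : c g ∈ Subgroup.closure ((u2 ∪ u1 : Finset H) : Set H) :=
        Subgroup.closure_mono (by rw [Finset.coe_union]; exact Set.subset_union_left) (hc g hg).1
      have h3 : (c g)⁻¹ * g ∈ Subgroup.closure ((u2 ∪ u1 : Finset H) : Set H) := by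
        have : (c g)⁻¹ * g ∈ Subgroup.closure (u1 : Set H) := by
          rw [hcl]; exact Subgroup.subset_closure ⟨g, hg, rfl⟩
        exact Subgroup.closure_mono (by rw [Finset.coe_union]; exact Set.subset_union_right) this
      have h4 := mul_mem h2 h3
      rwa [mul_inv_cancel_left] at h4

theorem FRN.of_subsingleton {H : Type*} [Group H] [Subsingleton H] : FRN 0 H := fun _ =>
  ⟨∅, le_rfl, Subsingleton.elim _ _⟩

theorem FRN.of_injective {H Q : Type*} [Group H] [Group Q] {r : ℕ} (f : H →* Q)
    (hf : Function.Injective f) (hQ : FRN r Q) : FRN r H := by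
  have : Subsingleton f.ker := by
    rw [(MonoidHom.ker_eq_bot_iff f).2 hf]
    infer_instance
  exact FRN.ext f FRN.of_subsingleton hQ

theorem FRN_rat : FRN 1 (Multiplicative ℚ) := by
  classical
  intro s
  set d : ℕ := ∏ q ∈ s, (Multiplicative.toAdd q).den with hd
  have hd0 : (d : ℚ) ≠ 0 := by
    have : d ≠ 0 := by
      rw [hd]; exact Finset.prod_ne_zero_iff.2 fun q _ => (Multiplicative.toAdd q).den_ne_zero
    exact_mod_cast this
  let g : Multiplicative ℤ →* Multiplicative ℚ :=
    AddMonoidHom.toMultiplicative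
      { toFun := fun n => (n : ℚ) / d
        map_zero' := by simp
        map_add' := fun x y => by push_cast; ring }
  have hs : Subgroup.closure (s : Set (Multiplicative ℚ)) ≤ g.range := by
    rw [Subgroup.closure_le]
    intro q hq
    obtain ⟨e, he⟩ : (Multiplicative.toAdd q).den ∣ d := Finset.dvd_prod_of_mem _ hq
    refine ⟨Multiplicative.ofAdd ((Multiplicative.toAdd q).num * e), ?_⟩
    apply Multiplicative.toAdd.injective
    change (((Multiplicative.toAdd q).num * (e : ℤ) : ℤ) : ℚ) / d = Multiplicative.toAdd q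
    rw [div_eq_iff hd0]
    have h1 : ((Multiplicative.toAdd q).num : ℚ)
        = Multiplicative.toAdd q * (Multiplicative.toAdd q).den :=
      (Rat.mul_den_eq_num _).symm
    push_cast
    rw [h1, he]
    push_cast
    ring
  have hc : IsCyclic ((Subgroup.closure (s : Set (Multiplicative ℚ))).comap g) := inferInstance
  obtain ⟨a, ha⟩ := (isCyclic_iff_exists_zpowers_eq_top (α :=
    ((Subgroup.closure (s : Set (Multiplicative ℚ))).comap g))).1 hc
  have h2 : (Subgroup.closure (s : Set (Multiplicative ℚ))).comap g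
      = Subgroup.zpowers (a : Multiplicative ℤ) := by
    have := congrArg (Subgroup.map ((Subgroup.closure (s : Set (Multiplicative ℚ))).comap g).subtype) ha
    rw [MonoidHom.map_zpowers, ← MonoidHom.range_eq_map, Subgroup.range_subtype] at this
    exact this.symm
  refine ⟨{g a}, by simp, ?_⟩
  have h3 : ((Subgroup.closure (s : Set (Multiplicative ℚ))).comap g).map g
      = Subgroup.closure (s : Set (Multiplicative ℚ)) := Subgroup.map_comap_eq_self hs
  have h4 := congrArg (Subgroup.map g) h2
  rw [h3, MonoidHom.map_zpowers, Subgroup.zpowers_eq_closure] at h4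
  rw [Finset.coe_singleton]
  exact h4.symm

theorem FRN_int : FRN 1 (Multiplicative ℤ) :=
  FRN.of_injective (AddMonoidHom.toMultiplicative (Int.castAddHom ℚ))
    (fun x y h => by
      apply Multiplicative.toAdd.injective
      have h' : ((Multiplicative.toAdd x : ℤ) : ℚ) = ((Multiplicative.toAdd y : ℤ) : ℚ) :=
        congrArg Multiplicative.toAdd h
      exact_mod_cast h') FRN_rat

end rank

open Pool.Agent.H.MP_6c6198

theorem rank_Hg : FRN 4 Hg :=
  FRN.ext (r1 := 3) (r2 := 1) Hg.f1 (FRN.ext (r1 := 2) (r2 := 1) Hg.f2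
    (FRN.ext (r1 := 1) (r2 := 1) Hg.f3 (FRN.of_injective Hg.f4 Hg.f4_injective FRN_rat) FRN_rat)
    FRN_rat) FRN_int

/-- The subgroup `k = 0`. -/
def D1 : Subgroup Hg where
  carrier := {x | x.k = 0}
  mul_mem' := by
    intro x y hx hy
    change x.k + y.k = 0
    rw [show x.k = 0 from hx, show y.k = 0 from hy, add_zero]
  one_mem' := rfl
  inv_mem' := by
    intro x hx
    change -x.k = 0
    rw [show x.k = 0 from hx, neg_zero]

/-- The subgroup `k = a = b = 0`. -/
def D2 : Subgroup Hg where
  carrier := {x | x.k = 0 ∧ x.a = 0 ∧ x.b = 0}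
  mul_mem' := by
    rintro x y ⟨hx, hxa, hxb⟩ ⟨hy, hya, hyb⟩
    refine ⟨?_, ?_, ?_⟩
    · change x.k + y.k = 0
      rw [hx, hy, add_zero]
    · change x.a + y.a * _ = 0
      rw [hxa, hya, zero_mul, add_zero]
    · change x.b + y.b * _ = 0
      rw [hxb, hyb, zero_mul, add_zero]
  one_mem' := ⟨rfl, rfl, rfl⟩
  inv_mem' := by
    rintro x ⟨hx, hxa, hxb⟩
    refine ⟨?_, ?_, ?_⟩
    · change -x.k = 0
      rw [hx, neg_zero]
    · change -(x.a * _) = 0
      rw [hxa, zero_mul, neg_zero]
    · change -(x.b * _) = 0
      rw [hxb, zero_mul, neg_zero]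

theorem derived_Hg : derivedSeries Hg 3 = ⊥ := by
  have h1 : derivedSeries Hg 1 ≤ D1 := by
    rw [derivedSeries_succ, Subgroup.commutator_le]
    intro x _ y _
    change (x * y * x⁻¹ * y⁻¹).k = 0
    change x.k + y.k + -x.k + -y.k = 0
    ring
  have h2 : derivedSeries Hg 2 ≤ D2 := by
    rw [derivedSeries_succ]
    refine (Subgroup.commutator_mono h1 h1).trans ?_
    rw [Subgroup.commutator_le]
    intro x hx y hy
    have hxk : x.k = 0 := hx
    have hyk : y.k = 0 := hy
    refine ⟨?_, ?_, ?_⟩
    · change x.k + y.k + -x.k + -y.k = 0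
      ring
    · simp only [commutatorElement_def, Hg.mul_def, Hg.inv_def, hxk, hyk]
      simp
    · simp only [commutatorElement_def, Hg.mul_def, Hg.inv_def, hxk, hyk]
      simp
  have h3 : derivedSeries Hg 3 ≤ ⊥ := by
    rw [derivedSeries_succ]
    refine (Subgroup.commutator_mono h2 h2).trans ?_
    rw [Subgroup.commutator_le]
    rintro x ⟨hxk, hxa, hxb⟩ y ⟨hyk, hya, hyb⟩
    rw [Subgroup.mem_bot]
    ext <;> simp [commutatorElement_def, Hg.mul_def, Hg.inv_def, hxk, hyk, hxa, hya, hxb, hyb,
      Hg.one_def]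
  exact le_bot_iff.1 h3

theorem rank_of_FRN {Q : Type*} [Group Q] {r : ℕ} (h : FRN r Q) : HasRankAtMost Q r := by
  rintro S ⟨s, rfl⟩
  exact h s

/-- A simple divisible module over the group ring of `H` gives the split extension. -/
theorem main_aux (H V : Type) [Group H] [AddCommGroup V] [Module (MonoidAlgebra ℤ H) V]
    (hs : derivedSeries H 3 = ⊥) (hr : FRN 4 H) [IsSimpleModule (MonoidAlgebra ℤ H) V]
    (hdiv : ∀ p : ℕ, p.Prime → ∀ x : V, ∃ y : V, p • y = x)
    (htf : ∀ p : ℕ, p.Prime → ∀ x : V, p • x = 0 → x = 0) :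
    ∃ (G : Type) (_ : Group G) (A K : Subgroup G) (_ : A.Normal),
      IsMinimalNormal A ∧ (∀ x ∈ A, ∀ y ∈ A, x * y = y * x) ∧
      (∀ n : ℕ, n ≠ 0 → ∀ x ∈ A, ∃! y : G, y ∈ A ∧ y ^ n = x) ∧
      A ⊓ K = ⊥ ∧ A ⊔ K = ⊤ ∧
      derivedSeries (G ⧸ A) 3 = ⊥ ∧ HasRankAtMost (G ⧸ A) 4 := by
  let G := Multiplicative V ⋊[act H V] H
  let A : Subgroup G := (SemidirectProduct.rightHom : G →* H).ker
  have hmemA : ∀ g : G, g ∈ A ↔ g.right = 1 := fun g => Iff.rfl
  have hform : ∀ g ∈ A, g = SemidirectProduct.inl g.left := by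
    intro g hg
    apply SemidirectProduct.ext
    · rfl
    · exact (hmemA g).1 hg
  have hinlA : ∀ x : Multiplicative V, (SemidirectProduct.inl x : G) ∈ A := fun x => rfl
  have hnt : Nontrivial V := IsSimpleModule.nontrivial (MonoidAlgebra ℤ H) V
  obtain ⟨x0, hx0⟩ := exists_ne (0 : V)
  have hinj : Function.Injective (SemidirectProduct.inl : Multiplicative V →* G) :=
    SemidirectProduct.inl_injective
  have hdiv' : ∀ n : ℕ, n ≠ 0 → ∀ x : V, ∃ y : V, n • y = x := by
    intro n
    induction n using Nat.recOnMul with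
    | zero => exact fun h => absurd rfl h
    | one => exact fun _ x => ⟨x, one_smul _ _⟩
    | prime p hp => exact fun _ x => hdiv p hp x
    | mul a b iha ihb =>
      intro hab x
      obtain ⟨y, hy⟩ := iha (left_ne_zero_of_mul hab) x
      obtain ⟨z, hz⟩ := ihb (right_ne_zero_of_mul hab) y
      exact ⟨z, by rw [mul_smul, hz, hy]⟩
  have htf' : ∀ n : ℕ, n ≠ 0 → ∀ x : V, n • x = 0 → x = 0 := by
    intro n
    induction n using Nat.recOnMul with
    | zero => exact fun h => absurd rfl h
    | one => exact fun _ x hx => by rwa [one_smul] at hx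
    | prime p hp => exact fun _ x => htf p hp x
    | mul a b iha ihb =>
      intro hab x hx
      rw [mul_smul] at hx
      exact ihb (right_ne_zero_of_mul hab) x (iha (left_ne_zero_of_mul hab) _ hx)
  refine ⟨G, inferInstance, A, (SemidirectProduct.inr : H →* G).range, inferInstance, ?_, ?_, ?_,
    ?_, ?_, ?_, ?_⟩
  · refine ⟨inferInstance, ?_, ?_⟩
    · intro hb
      have h1 : (SemidirectProduct.inl (Multiplicative.ofAdd x0) : G) ∈ (⊥ : Subgroup G) := by
        rw [← hb]; exact hinlA _
      rw [Subgroup.mem_bot] at h1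
      have h2 : Multiplicative.ofAdd x0 = 1 := hinj (h1.trans (map_one _).symm)
      exact hx0 (Multiplicative.ofAdd.injective h2)
    · intro N hN hNA
      let S : Submodule (MonoidAlgebra ℤ H) V :=
        { carrier := {x | (SemidirectProduct.inl (Multiplicative.ofAdd x) : G) ∈ N}
          add_mem' := by
            intro x y hx hy
            change (SemidirectProduct.inl (Multiplicative.ofAdd (x + y)) : G) ∈ N
            rw [ofAdd_add, map_mul]
            exact mul_mem hx hy
          zero_mem' := by
            change (SemidirectProduct.inl (Multiplicative.ofAdd (0 : V)) : G) ∈ N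
            rw [ofAdd_zero, map_one]
            exact one_mem _
          smul_mem' := by
            intro r x hx
            change (SemidirectProduct.inl (Multiplicative.ofAdd (r • x)) : G) ∈ N
            induction r using MonoidAlgebra.induction_on with
            | of g =>
              have h1 := hN.conj_mem _ hx (SemidirectProduct.inr g)
              rw [← map_inv, ← SemidirectProduct.inl_aut] at h1
              exact h1
            | add a b ha hb =>
              rw [add_smul, ofAdd_add, map_mul]
              exact mul_mem ha hb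
            | smul n a ha =>
              rw [smul_assoc, ofAdd_zsmul, map_zpow]
              exact zpow_mem ha _ }
      rcases eq_bot_or_eq_top S with hS | hS
      · left
        rw [eq_bot_iff]
        intro g hg
        have h1 := hform g (hNA hg)
        have h2 : Multiplicative.toAdd g.left ∈ S := by
          change (SemidirectProduct.inl (Multiplicative.ofAdd (Multiplicative.toAdd g.left)) : G)
            ∈ N
          rw [ofAdd_toAdd, ← h1]
          exact hg
        rw [hS, Submodule.mem_bot] at h2
        have h3 : g.left = 1 := Multiplicative.toAdd.injective h2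
        rw [Subgroup.mem_bot, h1, h3, map_one]
      · right
        refine le_antisymm hNA ?_
        intro g hg
        have h1 := hform g hg
        have h2 : Multiplicative.toAdd g.left ∈ S := by rw [hS]; trivial
        have h3 : (SemidirectProduct.inl
          (Multiplicative.ofAdd (Multiplicative.toAdd g.left)) : G) ∈ N := h2
        rw [ofAdd_toAdd, ← h1] at h3
        exact h3
  · intro x hx y hy
    rw [hform x hx, hform y hy, ← map_mul, ← map_mul, mul_comm]
  · intro n hn x hx
    obtain ⟨y, hy⟩ := hdiv' n hn (Multiplicative.toAdd x.left)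
    have hy' : (Multiplicative.ofAdd y) ^ n = x.left := by
      rw [← ofAdd_nsmul, hy, ofAdd_toAdd]
    refine ⟨SemidirectProduct.inl (Multiplicative.ofAdd y), ⟨hinlA _, ?_⟩, ?_⟩
    · rw [← map_pow, hy', ← hform x hx]
    · rintro z ⟨hz, hzn⟩
      rw [hform z hz, hform x hx, ← map_pow] at hzn
      have h1 : z.left ^ n = x.left := hinj hzn
      rw [hform z hz]
      congr 1
      have h2 : (z.left / Multiplicative.ofAdd y) ^ n = 1 := by
        rw [div_pow, h1, hy', div_self']
      have h3 : n • Multiplicative.toAdd (z.left / Multiplicative.ofAdd y) = 0 := by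
        rw [← toAdd_pow, h2, toAdd_one]
      have h4 := htf' n hn _ h3
      have h5 : z.left / Multiplicative.ofAdd y = 1 := Multiplicative.toAdd.injective h4
      exact div_eq_one.1 h5
  · rw [eq_bot_iff]
    rintro g ⟨hg, h, rfl⟩
    have h1 : h = 1 := hg
    rw [h1, map_one]
    exact one_mem _
  · rw [eq_top_iff]
    intro g _
    rw [← SemidirectProduct.inl_left_mul_inr_right g]
    exact mul_mem (Subgroup.mem_sup_left (hinlA _)) (Subgroup.mem_sup_right ⟨_, rfl⟩)
  · have h1 := map_derivedSeries_le_derivedSeries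
      (QuotientGroup.kerLift (SemidirectProduct.rightHom : G →* H)) 3
    rw [hs, Subgroup.map_le_iff_le_comap] at h1
    rw [eq_bot_iff]
    refine h1.trans ?_
    intro x hx
    exact (QuotientGroup.kerLift_injective (SemidirectProduct.rightHom : G →* H))
      ((show _ = (1 : H) from hx).trans (map_one _).symm)
  · exact rank_of_FRN (FRN.of_injective
      (QuotientGroup.kerLift (SemidirectProduct.rightHom : G →* H))
      (QuotientGroup.kerLift_injective _) hr)

/-- There are a group `G` and an abelian minimal normal subgroup `A` of `G`, torsion-free and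
divisible, such that `G` is a split extension of `A` and `G / A` is soluble of derived length at
most 3 with all finitely generated subgroups generated by at most 4 elements. -/
theorem result : ∃ (G : Type) (_ : Group G) (A K : Subgroup G) (_ : A.Normal),
    IsMinimalNormal A ∧ (∀ x ∈ A, ∀ y ∈ A, x * y = y * x) ∧
    (∀ n : ℕ, n ≠ 0 → ∀ x ∈ A, ∃! y : G, y ∈ A ∧ y ^ n = x) ∧
    A ⊓ K = ⊥ ∧ A ⊔ K = ⊤ ∧
    derivedSeries (G ⧸ A) 3 = ⊥ ∧ HasRankAtMost (G ⧸ A) 4 := by
  set R := MonoidAlgebra ℤ Hg
  let M : Submodule R Wt := Submodule.span R {vec}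
  have hfin : Module.Finite R M := by
    rw [Module.Finite.iff_fg]
    exact Submodule.fg_span_singleton vec
  have hvM : vec ∈ M := Submodule.mem_span_singleton_self vec
  have hnt : Nontrivial M := by
    refine ⟨⟨⟨vec, hvM⟩, 0, ?_⟩⟩
    intro h0
    exact vec_ne (congrArg Subtype.val h0)
  obtain ⟨m, hm⟩ := IsCoatomic.exists_coatom (Submodule R M)
  have hsimple : IsSimpleModule R (M ⧸ m) := isSimpleModule_iff_isCoatom.2 hm
  have hdiv : ∀ p : ℕ, p.Prime → ∀ x : M ⧸ m, ∃ y : M ⧸ m, p • y = x := by
    intro p hp x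
    obtain ⟨⟨y, hy⟩, rfl⟩ := Submodule.mkQ_surjective m x
    obtain ⟨r, rfl⟩ := Submodule.mem_span_singleton.1 hy
    obtain ⟨k, rfl⟩ := Nat.exists_eq_succ_of_ne_zero hp.ne_zero
    refine ⟨m.mkQ ⟨(r * X k) • vec, Submodule.smul_mem _ _ hvM⟩, ?_⟩
    rw [← map_nsmul]
    congr 1
    apply Subtype.ext
    change (k + 1) • ((r * X k) • vec) = r • vec
    rw [mul_smul, smul_comm (k + 1) r, key k]
  refine main_aux Hg (M ⧸ m) derived_Hg rank_Hg hdiv ?_
  intro p hp x hx
  by_contra hx0
  let S : Submodule R (M ⧸ m) :=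
    { carrier := {x | p • x = 0}
      add_mem' := by
        intro a b ha hb
        change p • (a + b) = 0
        rw [smul_add, show p • a = 0 from ha, show p • b = 0 from hb, add_zero]
      zero_mem' := smul_zero _
      smul_mem' := by
        intro r a ha
        change p • (r • a) = 0
        rw [smul_comm, show p • a = 0 from ha, smul_zero] }
  rcases eq_bot_or_eq_top S with hS | hS
  · have h1 : x ∈ S := hx
    rw [hS, Submodule.mem_bot] at h1
    exact hx0 h1
  · obtain ⟨y, hy⟩ := hdiv p hp x
    have h1 : y ∈ S := by rw [hS]; trivial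
    exact hx0 (hy ▸ h1)

end Pool.Agent.Results.MP_6c6198_al.DivisibleMinimalNormal
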